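import Mathlib
import Pool.Agent.LIM.All

set_option autoImplicit false

/-!
The number of starting points `n ≤ x` whose `3x+1` trajectory reaches `n ^ c`: an asymptotic formula.
-/

namespace Pool.Agent.Results.MP_0deaf3_nt.ExcursionAsymptotics

open Filter Topology

/-- The `3x+1` map. -/
def T (n : ℕ) : ℕ := if n % 2 = 0 then n / 2 else (3 * n + 1) / 2

/-- The number of heads among the first `k` of the coin tosses `w 0, …, w (K - 1)`. -/
def heads (k : ℕ) {K : ℕ} (w : Fin K → Bool) : ℕ :=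
  (Finset.univ.filter fun i : Fin K => (i : ℕ) < k ∧ w i = true).card

open scoped Classical in
/-- The share of the `2 ^ K` sequences of `K` tosses with `l * 2 ^ k ≤ 3 ^ (heads among the first
`k` tosses)` for some `1 ≤ k ≤ K`. -/
noncomputable def share (K : ℕ) (l : ℝ) : ℝ :=
  ((Finset.univ.filter fun w : Fin K → Bool =>
    ∃ k, 1 ≤ k ∧ k ≤ K ∧ l * 2 ^ k ≤ 3 ^ heads k w).card : ℝ) / 2 ^ K

/-- The probability that `l * 2 ^ k ≤ 3 ^ (heads among the first k tosses)` for some `k ≥ 1`. -/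
noncomputable def G (l : ℝ) : ℝ := ⨆ K : ℕ, share K l

/-- The constant `κ`. -/
noncomputable def kappa : ℝ := (1 - ∫ u in (1 : ℝ)..2, G u) / Real.log (27 / 16)

/-- The number of `n ≤ x` whose trajectory reaches `n ^ c` within `C log n` steps is asymptotic to
`κ / (2 - c) * x ^ (2 - c)`, for all `c` in some interval to the right of `1`. -/
theorem result (C : ℝ) (hC : 0 < C) (h : C < 2 / Real.log (4 / 3) + 1 / Real.log (3 / 2)) :
    (2 / 3 ≤ kappa ∧ kappa ≤ 1) ∧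
    ∃ c₁ : ℝ, 1 < c₁ ∧ ∀ c : ℝ, 1 < c → c < c₁ →
      Tendsto (fun x : ℕ => ({n : ℕ | 1 ≤ n ∧ n ≤ x ∧ ∃ k : ℕ, 1 ≤ k ∧
          (k : ℝ) ≤ C * Real.log n ∧ (n : ℝ) ^ c ≤ ((T^[k] n : ℕ) : ℝ)}.ncard : ℝ) /
        (x : ℝ) ^ (2 - c)) atTop (𝓝 (kappa / (2 - c))) := by
  refine ⟨Pool.Agent.LIM.all_KAP.2, ?_⟩
  obtain ⟨c₁, h1, h2⟩ := Pool.Agent.LIM.all_ASY C hC h
  refine ⟨c₁, h1, fun c hc1 hc2 => (h2 c hc1 hc2).congr fun x => ?_⟩
  unfold Pool.Agent.LIM.NX
  simp only [Nat.cast_le]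
  rfl

end Pool.Agent.Results.MP_0deaf3_nt.ExcursionAsymptotics
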