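import Mathlib
import Pool.Agent.LIM.All

set_option autoImplicit false

/-!
The limit law of the maximum excursion of the `3x+1` map.
-/

namespace Pool.Agent.Results.MP_0deaf3_nt.LimitLaw

open Filter Topology

/-- The `3x+1` map. -/
def T (n : ℕ) : ℕ := if n % 2 = 0 then n / 2 else (3 * n + 1) / 2

/-- The maximum excursion `t(n) = sup_{k ≥ 1} T^[k] n`, with `⊤` for infinity. -/
noncomputable def t (n : ℕ) : ℕ∞ := ⨆ k : ℕ, ⨆ _ : 1 ≤ k, ((T^[k] n : ℕ) : ℕ∞)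

/-- The set `A` of positive integers has natural density `d`. -/
def HasDensity (A : Set ℕ) (d : ℝ) : Prop :=
  Tendsto (fun N : ℕ => (Set.ncard {n : ℕ | 1 ≤ n ∧ n ≤ N ∧ n ∈ A} : ℝ) / N) atTop (𝓝 d)

/-- The number of heads among the first `k` of the coin tosses `w 0, …, w (K - 1)`. -/
def heads (k : ℕ) {K : ℕ} (w : Fin K → Bool) : ℕ :=
  (Finset.univ.filter fun i : Fin K => (i : ℕ) < k ∧ w i = true).card

open scoped Classical in
/-- The share of the `2 ^ K` sequences of `K` tosses with `l * 2 ^ k ≤ 3 ^ (heads among the first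
`k` tosses)` for some `1 ≤ k ≤ K`. -/
noncomputable def share (K : ℕ) (l : ℝ) : ℝ :=
  ((Finset.univ.filter fun w : Fin K → Bool =>
    ∃ k, 1 ≤ k ∧ k ≤ K ∧ l * 2 ^ k ≤ 3 ^ heads k w).card : ℝ) / 2 ^ K

/-- The probability that `l * 2 ^ k ≤ 3 ^ (heads among the first k tosses)` for some `k ≥ 1`. -/
noncomputable def G (l : ℝ) : ℝ := ⨆ K : ℕ, share K l

/-- The constant `κ`. -/
noncomputable def kappa : ℝ := (1 - ∫ u in (1 : ℝ)..2, G u) / Real.log (27 / 16)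

/-- **The limit law of the maximum excursion.** The `n` with `l n < t(n) < ∞` have natural density
`D * G l`, where `D` is the natural density of the `n` with `t(n) < ∞`; the same holds inside the set
of `n` that reach `1`, and for all `n` when only the times `k ≤ C log n` are considered. -/
theorem result :
    ∃ D₁ D : ℝ, 0 < D₁ ∧ D₁ ≤ D ∧
    HasDensity {n : ℕ | ∃ k, T^[k] n = 1} D₁ ∧ HasDensity {n : ℕ | t n < ⊤} D ∧
    (∀ l : ℝ, 1 ≤ l →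
      HasDensity {n : ℕ | ∃ m : ℕ, t n = m ∧ l * n < m} (D * G l) ∧
      HasDensity {n : ℕ | ∃ m : ℕ, t n = m ∧ (m : ℝ) ≤ l * n} (D * (1 - G l)) ∧
      HasDensity {n : ℕ | (∃ k, T^[k] n = 1) ∧ ∃ m : ℕ, t n = m ∧ l * n < m} (D₁ * G l) ∧
      HasDensity {n : ℕ | (∃ k, T^[k] n = 1) ∧ ∃ m : ℕ, t n = m ∧ (m : ℝ) ≤ l * n}
        (D₁ * (1 - G l)) ∧
      (∀ C : ℝ, 0 < C → C < 2 / Real.log (4 / 3) + 1 / Real.log (3 / 2) →
        HasDensity {n : ℕ | ∃ k : ℕ, 1 ≤ k ∧ (k : ℝ) ≤ C * Real.log n ∧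
          l * n < ((T^[k] n : ℕ) : ℝ)} (G l)) ∧
      2 / (3 * l) ≤ G l ∧ G l ≤ 1 / l) ∧
    (Tendsto (fun l : ℝ => l * G l) atTop (𝓝 kappa) ∧ 2 / 3 ≤ kappa ∧ kappa ≤ 1) ∧
    ∀ ψ : ℕ → ℝ, Tendsto ψ atTop atTop →
      HasDensity {n : ℕ | (∃ k, T^[k] n = 1) ∧ ∃ m : ℕ, t n = m ∧ (m : ℝ) ≤ ψ n * n} D₁ ∧
      HasDensity {n : ℕ | ∃ m : ℕ, t n = m ∧ (m : ℝ) ≤ ψ n * n} D :=
  Pool.Agent.LIM.FinB_main Pool.Agent.LIM.all_INV Pool.Agent.LIM.all_HOR Pool.Agent.LIM.all_GI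
    Pool.Agent.LIM.all_KAP

end Pool.Agent.Results.MP_0deaf3_nt.LimitLaw
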