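import Mathlib
import Pool.Agent.Collatz3.LTMain
import Pool.Agent.Collatz3.EXTao

set_option autoImplicit false

/-!
Excursions of 3x+1 trajectories: a power saving for every exponent above 1.
-/

namespace Pool.Agent.Results.MP_0deaf3_nt.PowerSaving

open Filter
open Pool.Agent.Collatz3.EX

/-- All but `x ^ (1 - δ)` of the `n ≤ x` satisfy `T^k n < n ^ c` for all `1 ≤ k ≤ C log n`. -/
theorem result (c C : ℝ) (hc : 1 < c) (hC : 0 < C)
    (h : C < 2 / Real.log (4 / 3) + c / Real.log (3 / 2)) :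
    ∃ δ : ℝ, 0 < δ ∧ ∀ᶠ x : ℕ in atTop,
      ({n : ℕ | 1 ≤ n ∧ n ≤ x ∧ ¬ ∀ k : ℕ, 1 ≤ k → (k : ℝ) ≤ C * Real.log n →
        (((fun m : ℕ => if m % 2 = 0 then m / 2 else (3 * m + 1) / 2)^[k] n : ℕ) : ℝ) <
          (n : ℝ) ^ c}.ncard : ℝ) ≤ (x : ℝ) ^ (1 - δ) := by
  obtain ⟨δ, h0, h1⟩ := power_saving Pool.Agent.Collatz3.LT.theoremS hc hC h
  refine ⟨δ, h0, h1.mono fun x hx => ?_⟩
  refine le_trans (le_of_eq ?_) hx
  congr 2
  ext n
  constructor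
  · rintro ⟨a, b, d⟩
    push Not at d
    obtain ⟨k, k1, k2, k3⟩ := d
    exact ⟨a, b, k, k1, k2, k3⟩
  · rintro ⟨a, b, k, k1, k2, k3⟩
    refine ⟨a, b, fun hall => ?_⟩
    exact absurd (hall k k1 k2) (not_lt.2 k3)

end Pool.Agent.Results.MP_0deaf3_nt.PowerSaving
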