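import Mathlib
import Pool.Agent.Collatz3.LTMain
import Pool.Agent.Collatz3.EXStraight

set_option autoImplicit false

/-!
Straight descent of 3x+1 trajectories to a bound `M`, with a power of `M`.
-/

namespace Pool.Agent.Results.MP_0deaf3_nt.StraightDescent

open Filter
open Pool.Agent.Collatz3.EX

/-- All but `C * X * M ^ (-c)` of the `n ≤ X` descend to `M` within `(2 / log (4/3) + ε) log n`
steps and without ever exceeding `n ^ (1 + ε)` on the way, for all `1 ≤ M ≤ X`. -/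
theorem result (ε : ℝ) (hε : 0 < ε) : ∃ c : ℝ, 0 < c ∧ ∃ C : ℝ, 0 < C ∧
    ∀ M X : ℝ, 1 ≤ M → M ≤ X →
    ({n : ℕ | 1 ≤ n ∧ (n : ℝ) ≤ X ∧
      ¬ ∃ k : ℕ, (k : ℝ) ≤ (2 / Real.log (4 / 3) + ε) * Real.log n ∧
      (((fun m : ℕ => if m % 2 = 0 then m / 2 else (3 * m + 1) / 2)^[k] n : ℕ) : ℝ) ≤ M ∧
      ∀ j ≤ k, (((fun m : ℕ => if m % 2 = 0 then m / 2 else (3 * m + 1) / 2)^[j] n : ℕ) : ℝ) ≤
        (n : ℝ) ^ (1 + ε)}.ncard : ℝ) ≤ C * X * M ^ (-c) :=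
  straightM Pool.Agent.Collatz3.LT.theoremS hε

end Pool.Agent.Results.MP_0deaf3_nt.StraightDescent
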